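import Mathlib
import Pool.Agent.RPDepth.Hered
import Pool.Agent.RPDepth.Club

/-!
# MP_f8b13c_lc: Q1 for normal filters, if `T_D` is few steps above `2 ^ κ`

`κ = #ι` is infinite, `D` a proper filter on `ι`, `B i` are ordered sets, for example Boolean
algebras, and `2 ^ κ < lam i < Depth⁺(B i)`.

Let `Q ⊆ ι × W`, where `#W ≤ κ`.  A proper filter `D'` that contains `D` is a `Q`-complete extension
of `D` (`QExt Q D D'`) if it is closed under countable intersections and under the diagonal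
intersections `{i | ∀ w, Q i w → i ∈ S w}`, and `{i | Q i w} ∈ D` for all `w`.  The filter `D` is
hereditary (`Hereditary W D`) if every `D + Y`, `Y` a `D`-positive set, has a `Q`-complete extension
for some `Q`.

Let `ρ` be a cardinal with `2 ^ κ ≤ ρ` and `ν ^ κ ≤ ρ` for all `ν < ρ`, such that `ρ ^ κ = ρ` or
`cf ρ ≤ #W`; for example `ρ = 2 ^ κ`.  Let `|β| ≤ #W`.

* If `A` is `D`-positive, `D + A` is hereditary and `T_{D+A}(lam) ≤ ρ^{+β}`, then
  `T_D(lam) ≤ T_{D+A}(lam) < Depth⁺(∏ B i / D)`, provided that `T_{D+A}(lam) > ρ` or `lam i > ρ` for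
  `D`-positively many `i`.  So the inequality of Q1 holds.
* If `D'` is a `Q`-complete extension of `D`, then every regular cardinal `χ` with
  `ρ < χ ≤ ρ^{+β}` and `χ ≤ T_{D'}(lam)` is less than `Depth⁺(∏ B i / D)`.
* Let `σ` be the least cardinal such that `{i | lam i ≤ σ ^ κ}` is `D`-positive.  If the inequality
  of Q1 fails and `D` is hereditary with `W = ι`, then `T_D(lam) > σ^{+β}` for all `β < κ⁺`.

For the linear orders on `ι` such that `D` contains all final segments `{i | j < i}`: every normal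
filter that contains `D` is a `Q`-complete extension of `D`, where `Q i j` is `j < i`.  Every
`θ`-complete proper filter that contains `D` is one if `#W < θ`, where `θ > ℵ₀`.  Filters that are
`Q`-complete extensions of themselves are hereditary, and so is the filter of the cobounded subsets
of every regular uncountable cardinal.
-/

set_option autoImplicit false

universe u

open Cardinal Filter Order Ordinal

namespace Pool.Agent.Results.MP_f8b13c_lc.NormalFilters

open Pool.Agent.RPDepth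

theorem result (ι : Type u) [Infinite ι] (D : Filter ι) [D.NeBot] (B : ι → Type u)
    [∀ i, Preorder (B i)] (lam : ι → Cardinal.{u}) (h2 : ∀ i, 2 ^ #ι < lam i)
    (hB : ∀ i, lam i < depthPlus (B i)) :
    (∀ (W : Type u) (o β : Ordinal.{u}), #W ≤ #ι → β.card ≤ #W →
      2 ^ #ι ≤ ℵ_ o → (∀ ν < ℵ_ o, ν ^ #ι ≤ ℵ_ o) →
      ((ℵ_ o) ^ #ι = ℵ_ o ∨ (ℵ_ o).ord.cof ≤ #W) →
      -- Q1, if some `D + A` is hereditary
      (∀ A : Set ι, (∃ᶠ i in D, i ∈ A) → Hereditary W (D ⊓ 𝓟 A) →
        TD (D ⊓ 𝓟 A) lam ≤ ℵ_ (o + β) →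
        (ℵ_ o < TD (D ⊓ 𝓟 A) lam ∨ ∃ᶠ i in D, ℵ_ o < lam i) →
        TD D lam ≤ TD (D ⊓ 𝓟 A) lam ∧ TD (D ⊓ 𝓟 A) lam < depthPlus (RedProd D B)) ∧
      -- regular lengths, for `D` with a `Q`-complete extension `D'`
      (∀ (Q : ι → W → Prop) (D' : Filter ι), QExt Q D D' → ∀ χ : Cardinal.{u}, χ.IsRegular →
        ℵ_ o < χ → χ ≤ ℵ_ (o + β) → χ ≤ TD D' lam → χ < depthPlus (RedProd D B))) ∧
    -- what happens if Q1 fails
    (¬ TD D lam < depthPlus (RedProd D B) → Hereditary ι D →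
      ∀ s β : Ordinal.{u}, sigma D lam = ℵ_ s → β.card ≤ #ι → ℵ_ (s + β) < TD D lam) ∧
    -- normal filters
    (∀ (_ : LinearOrder ι) (D' : Filter ι), D' ≤ D → D'.NeBot → Normal D' →
      (∀ j, ∀ᶠ i in D, j < i) → QExt (fun i j => j < i) D D') ∧
    -- complete filters
    (∀ (θ : Cardinal.{u}) (W : Type u) (D' : Filter ι), D' ≤ D → D'.NeBot → ℵ₀ < θ →
      Complete D' θ → #W < θ → QExt (fun (_ : ι) (_ : W) => True) D D') ∧
    -- hereditary filters
    (∀ (W : Type u) (Q : ι → W → Prop), QExt Q D D → Hereditary W D) ∧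
    (∀ κ : Cardinal.{u}, κ.IsRegular → ℵ₀ < κ →
      Hereditary κ.ord.ToType (atTop : Filter κ.ord.ToType)) := by
  refine ⟨fun W o β hW hβ h2o hν hcof => ⟨fun A hA hH hT hoT =>
      q1_of_hereditary_strong D B lam h2 hB hA hH hW h2o hν hcof hβ hT hoT,
      fun Q D' ⟨hDD', hNB, hfine, hω, hQ⟩ χ hχ h3 h4 h5 =>
        lt_of_extension hDD' B lam h2 hB hω hQ hfine hW h2o hν hcof hβ hχ h3 h4 h5⟩,
    fun hno hH s β hs hβ => sigma_lt_of_hereditary D B lam h2 hB hno hH hs hβ,
    fun _ D' hDD' hNB hD' ht => ⟨hDD', hNB, ht,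
      OmegaComplete.of_normal hD' (fun j => hDD' (ht j)), QComplete.of_normal hD'⟩,
    fun θ W D' hDD' hNB h0 hD' hW => ⟨hDD', hNB, fun _ => Eventually.of_forall fun _ => trivial,
      OmegaComplete.of_complete hD' h0, QComplete.of_complete hD' hW⟩,
    fun W Q h => h.hereditary, fun κ hκ hω Y hY => hereditary_atTop hκ hω Y hY⟩

end Pool.Agent.Results.MP_f8b13c_lc.NormalFilters
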