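import Mathlib
import Pool.Agent.RPDepth.Reg

/-!
# MP_f8b13c_lc: Q1 reduces to regular lengths

`κ = #ι` is infinite, `D` a proper filter on `ι`, `B i` are ordered sets, for example Boolean
algebras, and `2 ^ κ < lam i < Depth⁺(B i)`.

* Suppose that for every `D`-positive set `A` and all cardinals `2 ^ κ < μ i ≤ lam i`, every regular
  cardinal `χ` with `2 ^ κ < χ ≤ T_{D+A}(μ)` and `χ ≤ T_D(lam)` is the length of a strictly increasing
  sequence of `∏ μ i / (D + A)`.  Then the inequality `T_D(lam) < Depth⁺(∏ B i / D)` of Q1 holds, for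
  regular and for singular `T_D(lam)`.
* Hence Q1 holds on `ι` (for all filters, cardinals and ordered sets) if and only if for all filters
  `D` on `ι` and all cardinals `lam i > 2 ^ κ`, every regular `χ` with `2 ^ κ < χ ≤ T_D(lam)` is less
  than `Depth⁺(∏ lam i / D)`.
-/

set_option autoImplicit false

universe u

open Cardinal Filter Order Ordinal

namespace Pool.Agent.Results.MP_f8b13c_lc.RegularLengths

open Pool.Agent.RPDepth

theorem result (ι : Type u) [Infinite ι] :
    -- regular lengths are enough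
    (∀ (D : Filter ι) [D.NeBot] (B : ι → Type u) [∀ i, Preorder (B i)] (lam : ι → Cardinal.{u}),
      (∀ i, 2 ^ #ι < lam i) → (∀ i, lam i < depthPlus (B i)) → RegLengths D lam →
      TD D lam < depthPlus (RedProd D B)) ∧
    -- the equivalence
    ((∀ (D : Filter ι) [D.NeBot] (B : ι → Type u) [∀ i, Preorder (B i)] (lam : ι → Cardinal.{u}),
      (∀ i, 2 ^ #ι < lam i) → (∀ i, lam i < depthPlus (B i)) →
      TD D lam < depthPlus (RedProd D B)) ↔
    (∀ (D : Filter ι) [D.NeBot] (lam : ι → Cardinal.{u}), (∀ i, 2 ^ #ι < lam i) →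
      ∀ χ : Cardinal.{u}, χ.IsRegular → 2 ^ #ι < χ → χ ≤ TD D lam →
      χ < depthPlus (RedProd D (fun i => (lam i).ord.ToType)))) := by
  refine ⟨fun D _ B _ lam h2 hB hR => q1_of_regular D B lam h2 hB hR, ⟨?_, ?_⟩⟩
  · intro h D _ lam h2 χ _ _ hle
    exact hle.trans_lt (h D (fun i => (lam i).ord.ToType) lam h2
      fun i => lt_depthPlus ⟨id, strictMono_id⟩)
  · intro h D _ B _ lam h2 hB
    refine q1_of_regular D B lam h2 hB fun A hA μ hμ χ hχ h2χ hle _ => ?_
    have hNB : (D ⊓ 𝓟 A).NeBot := by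
      rw [← frequently_mem_iff_neBot]
      exact hA
    exact h (D ⊓ 𝓟 A) μ (fun i => (hμ i).1) χ hχ h2χ hle

end Pool.Agent.Results.MP_f8b13c_lc.RegularLengths
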