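import Mathlib
import Pool.Agent.RPDepth.TauF

/-!
# MP_f8b13c_lc: depth of reduced products, unless `T_D` violates the singular cardinal hypothesis

`κ = #ι` is infinite, `D` a proper filter on `ι`, `B i` are ordered sets, for example Boolean
algebras, and `2 ^ κ < lam i < Depth⁺(B i)`.  Let `T = T_D(lam)`.

Let `τ = tau D lam` be the largest cardinal such that `ν < lam i` for `D`-almost all `i` and
`T_{D+A}(ν) ≤ τ`, for all `ν < τ` and all `D`-positive sets `A`.  Then `2 ^ κ < τ` and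
`min T τ⁺ < Depth⁺(∏ B i / D)`.  If the inequality `T < Depth⁺(∏ B i / D)` of Q1 fails, then

* `T > τ⁺`, and `T_{D+A}(τ) > τ⁺` for some `D`-positive set `A`,
* `cf τ ≤ κ`, and `θ ≤ cf τ` whenever `D` is `θ`-complete,
* `lam i < T` for `D`-almost all `i`, and some `g` in `∏ lam i` tends to `τ` modulo `D`.

Let `σ = sigma D lam` be the least cardinal such that `{i | lam i ≤ σ ^ κ}` is `D`-positive.  Then
`2 ^ κ < σ ≤ τ`, `ν ^ κ < σ` for all `ν < σ` and `T ≤ σ ^ κ`.  If the inequality fails, then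
`cf σ ≤ κ`, so that the singular cardinal hypothesis fails at `σ`.

So the inequality holds for all data if `ν ^ κ ≤ ν⁺` for all `ν > 2 ^ κ`, and in ZFC whenever `D` is
`θ`-complete and `lam i ≤ (2 ^ κ)^{+α}` for `D`-positively many `i`, where `|α| < θ`.
-/

set_option autoImplicit false

universe u

open Cardinal Filter Order Ordinal

namespace Pool.Agent.Results.MP_f8b13c_lc.UnlessSCHFails

open Pool.Agent.RPDepth

theorem result (ι : Type u) [Infinite ι] (D : Filter ι) [D.NeBot] (B : ι → Type u)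
    [∀ i, Preorder (B i)] (lam : ι → Cardinal.{u}) (h2 : ∀ i, 2 ^ #ι < lam i)
    (hB : ∀ i, lam i < depthPlus (B i)) :
    -- the cardinals `σ` and `τ`
    (2 ^ #ι < sigma D lam ∧ (∀ ν < sigma D lam, ν ^ #ι < sigma D lam) ∧
      TD D lam ≤ sigma D lam ^ #ι ∧ sigma D lam ≤ tau D lam ∧
      (∀ ν < tau D lam, ∀ᶠ i in D, ν < lam i) ∧ Closed D (tau D lam)) ∧
    -- the lower bound for the depth
    min (TD D lam) (succ (tau D lam)) < depthPlus (RedProd D B) ∧
    -- what happens if the inequality of Q1 fails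
    (¬ TD D lam < depthPlus (RedProd D B) →
      succ (tau D lam) < TD D lam ∧
      (∃ A : Set ι, (∃ᶠ i in D, i ∈ A) ∧
        succ (tau D lam) < TD (D ⊓ 𝓟 A) (fun _ => tau D lam)) ∧
      (sigma D lam).ord.cof ≤ #ι ∧ (tau D lam).ord.cof ≤ #ι ∧
      (∀ θ, Complete D θ → θ ≤ (tau D lam).ord.cof) ∧
      (∀ᶠ i in D, lam i < TD D lam) ∧
      ∃ g : ∀ i, (lam i).ord.ToType, ∀ β < (tau D lam).ord,
        ∀ᶠ i in D, β ≤ ((g i).toOrd : Ordinal.{u})) ∧
    -- the singular cardinal hypothesis implies the inequality of Q1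
    ((∀ ν : Cardinal.{u}, 2 ^ #ι < ν → ν ^ #ι ≤ succ ν) →
      TD D lam < depthPlus (RedProd D B)) ∧
    -- the case of small `lam i`
    (∀ (θ : Cardinal.{u}) (o α : Ordinal.{u}), ℵ₀ ≤ θ → Complete D θ → 2 ^ #ι = ℵ_ o →
      α.card < θ → (∃ᶠ i in D, lam i ≤ ℵ_ (o + α)) → TD D lam < depthPlus (RedProd D B)) := by
  obtain ⟨h3, h4⟩ := sigma_facts D lam h2
  have h5 := sigma_le_tau D lam h2
  refine ⟨⟨h3, h4, TD_le D lam h2, h5, tau_lim D lam, tau_closed D lam⟩,
    min_lt_of_closed D B lam h2 hB (h3.le.trans h5) (tau_lim D lam) (tau_closed D lam),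
    fun hno => ?_, main_sch D B lam h2 hB,
    fun θ o α h0 hθ ho hα hfr => lt_of_complete D B lam h2 hB h0 hθ ho hα hfr⟩
  obtain ⟨h6, -, h7, -⟩ := fails D B lam h2 hB hno
  obtain ⟨h8, h9, h10⟩ := fails_tau D B lam h2 hB hno
  obtain ⟨h11, h12⟩ := fails_cof D B lam h2 hB hno
  exact ⟨h8, h9, h6, h11, h12, h7, h10⟩

end Pool.Agent.Results.MP_f8b13c_lc.UnlessSCHFails
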