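import Mathlib
import Pool.Agent.RPDepth.UStr
import Pool.Agent.RPDepth.Canon

/-!
# MP_f8b13c_lc: Q1 for cardinals that are well-founded over smaller ones

`κ = #ι` is infinite, `D` a proper filter on `ι`, `B i` are ordered sets, for example Boolean
algebras, and `2 ^ κ < lam i < Depth⁺(B i)`.  Let `A` be a `D`-positive set and let `D + A` be the
filter generated by `D` and `A`.  A function `f` from `ι` to the ordinals is well-founded for `D` on
`A` (`NoDescent D A f`) if on no positive subset of `A` is there an infinite descending sequence of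
functionals below `f`.

Always `T_D(lam) ≤ T_{D+A}(lam)`.  The inequality `T_{D+A}(lam) < Depth⁺(∏ B i / D)`, and with it
that of Q1, holds in the following cases.

* `D + A` is precipitous.
* `ρ ^ κ = ρ` and `ρ < lam i ≤ ρ^{+ f i}` on `A`, where `f` is well-founded for `D` on `A`.
* `lam i ≤ (μ i)^{+ f i}` on `A`, where `f` is well-founded for `D` on `A`, `2 ^ κ ≤ X`,
  `T_{D+A'}(μ) ≤ X` for all positive `A' ⊆ A`, and `X < T_{D+A}(lam)` or `X < lam i` for
  `D`-positively many `i`.

All functions are well-founded for `D` on `A` if `D + A` is precipitous.  The constants `n` are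
well-founded for every `D`, and with `f` also `f + 1` is.  If `D` is `θ`-complete, then the constants
`α` with `|α| < θ` are well-founded, and the well-founded functions are closed under suprema of fewer
than `θ` functions.  If `D` is normal, then they are closed under diagonal suprema and contain the
canonical functions `i ↦ type of ({j | j < i}, r)` for all well-orderings `r` of `ι`; if `ι` is
well-ordered by `<`, then the identity is one of them.
-/

set_option autoImplicit false

universe u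

open Cardinal Filter Order Ordinal

namespace Pool.Agent.Results.MP_f8b13c_lc.WellFoundedSteps

open Pool.Agent.RPDepth

theorem result (ι : Type u) [Infinite ι] (D : Filter ι) [D.NeBot] (B : ι → Type u)
    [∀ i, Preorder (B i)] (lam : ι → Cardinal.{u}) (h2 : ∀ i, 2 ^ #ι < lam i)
    (hB : ∀ i, lam i < depthPlus (B i)) (A : Set ι) (hA : ∃ᶠ i in D, i ∈ A) :
    -- any `lam`, if `D + A` is precipitous
    (Precipitous (D ⊓ 𝓟 A) →
      TD D lam ≤ TD (D ⊓ 𝓟 A) lam ∧ TD (D ⊓ 𝓟 A) lam < depthPlus (RedProd D B)) ∧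
    -- `ρ < lam i ≤ ρ ^{+ f i}`
    (∀ (f : ι → Ordinal.{u}) (o : Ordinal.{u}), NoDescent D A f → (ℵ_ o) ^ #ι = ℵ_ o →
      (∀ i ∈ A, ℵ_ o < lam i ∧ lam i ≤ ℵ_ (o + f i)) →
      TD D lam ≤ TD (D ⊓ 𝓟 A) lam ∧ TD (D ⊓ 𝓟 A) lam < depthPlus (RedProd D B)) ∧
    -- `lam i ≤ (μ i) ^{+ f i}`
    (∀ (f o : ι → Ordinal.{u}) (X : Cardinal.{u}), NoDescent D A f → 2 ^ #ι ≤ X →
      (∀ A' ⊆ A, (∃ᶠ i in D, i ∈ A') → TD (D ⊓ 𝓟 A') (fun i => ℵ_ (o i)) ≤ X) →
      (∀ i ∈ A, lam i ≤ ℵ_ (o i + f i)) →
      (X < TD (D ⊓ 𝓟 A) lam ∨ ∃ᶠ i in D, X < lam i) →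
      TD D lam ≤ TD (D ⊓ 𝓟 A) lam ∧ TD (D ⊓ 𝓟 A) lam < depthPlus (RedProd D B)) ∧
    -- well-founded functions: precipitous filters
    (Precipitous (D ⊓ 𝓟 A) → ∀ f, NoDescent D A f) ∧
    -- natural numbers
    (∀ n : ℕ, NoDescent D A (fun _ => (n : Ordinal.{u}))) ∧
    -- successors
    (∀ f, NoDescent D A f → NoDescent D A (fun i => f i + 1)) ∧
    -- `θ`-complete filters: constants and suprema
    (∀ θ : Cardinal.{u}, Complete D θ →
      (∀ α : Ordinal.{u}, α.card < θ → NoDescent D A (fun _ => α)) ∧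
      ∀ (J : Type u) (F : J → ι → Ordinal.{u}) (f : ι → Ordinal.{u}), #J < θ →
        (∀ j, NoDescent D A (F j)) → (∀ i ∈ A, ∀ β < f i, ∃ j, β ≤ F j i) → NoDescent D A f) ∧
    -- normal filters: canonical functions and diagonal suprema
    (∀ _ : LinearOrder ι, Normal D →
      (∀ (r : ι → ι → Prop) [IsWellOrder ι r],
        NoDescent D A (fun i => Ordinal.type (Subrel r fun j => j < i))) ∧
      ∀ (F : ι → ι → Ordinal.{u}) (f : ι → Ordinal.{u}), (∀ j, NoDescent D A (F j)) →
        (∀ i ∈ A, ∀ β < f i, ∃ j < i, β ≤ F j i) → NoDescent D A f) := by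
  refine ⟨fun hP => q1_strong D B lam h2 hB hA hP,
    fun f o hf ho hlam => q1_of_closed_strong D B lam h2 hB hA ho hf hlam,
    fun f o X hf h2X hμ hlam hX => ⟨TD_le_restrict D lam A,
      q1_of_wf_strong D B lam h2 hB hA hf h2X hμ hlam hX⟩,
    fun hP f => NoDescent.of_precipitous hP f,
    fun n => NoDescent.of_fodor (Fodor.of_nat D n A),
    fun f hf => hf.succ,
    fun θ hθ => ⟨fun α hα => NoDescent.of_fodor (Fodor.of_complete hθ hα A),
      fun J F f hJ hF hf => NoDescent.sup hθ hJ F hF hf⟩,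
    fun _ hD => ⟨fun r _ => NoDescent.canon hD A r, fun F f hF hf => NoDescent.diag hD F hF hf⟩⟩

end Pool.Agent.Results.MP_f8b13c_lc.WellFoundedSteps
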